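import Pool.Agent.helper24.IC.Spec

set_option autoImplicit false

namespace Pool.Agent.IC

universe u

lemma INT_enum (P : Finset ℕ) (j : ℕ) (h : P.card = j) : ∃ p : Fin j → ℕ, Function.Injective p ∧ ∀ i, p i ∈ P := by
  refine ⟨fun i => ((P.equivFinOfCardEq h).symm i : ℕ), fun i i' hii => ?_, fun i => ((P.equivFinOfCardEq h).symm i).2⟩
  exact (P.equivFinOfCardEq h).symm.injective (Subtype.ext hii)

lemma INT_pick {S : Type u} [Ring S] (g : S) (P : Finset ℕ) (j : ℕ) (p : Fin j → ℕ) (hp : Function.Injective p)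
    (hpP : ∀ i, p i ∈ P) (s b : ℕ → S) (hs : ∀ i ∈ P, ∀ i' ∈ P, s i * b i' = if i = i' then g else 0)
    (c : Fin j → S) (i : Fin j) : (∑ k, c k * s (p k)) * b (p i) = c i * g := by
  rw [Finset.sum_mul, Finset.sum_eq_single i]
  · rw [mul_assoc, hs _ (hpP i) _ (hpP i), if_pos rfl]
  · intro k _ hk
    rw [mul_assoc, hs _ (hpP k) _ (hpP i), if_neg (fun h => hk (hp h)), mul_zero]
  · intro h
    exact absurd (Finset.mem_univ i) h

theorem INT (hBAS : BAS_stmt.{u}) (hDEP : DEP_stmt.{u}) : INT_stmt.{u} := by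
  intro S _ R E γ hM a A B j j' hjj hA hB
  obtain ⟨hb1, hb2, _⟩ := hBAS S R E γ hM
  obtain ⟨P, s, _, hPc, hs⟩ := hA
  obtain ⟨P', s', _, hPc', hs'⟩ := hB
  obtain ⟨p, hp, hpP⟩ := INT_enum P j hPc
  obtain ⟨p', hp', hpP'⟩ := INT_enum P' j' hPc'
  obtain ⟨c, hc1, hc2, hc3⟩ := hDEP S (R a) (E a) (hM.mem a) (hM.ne a) (hM.idem a) (hM.prim a) (j + j') (a + 1) hjj
    (Fin.append (fun i (l : Fin (a + 1)) => s (p i) * bb E γ a l) (fun i (l : Fin (a + 1)) => s' (p' i) * bb E γ a l)) (by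
      intro i l
      refine Fin.addCases (fun i => ?_) (fun i => ?_) i
      · rw [Fin.append_left]
        obtain ⟨h1, _, h3, _⟩ := hs (p i) (hpP i)
        refine ⟨(R a).mul_mem h1 (hb1 a l).1, ?_, ?_⟩
        · rw [mul_assoc, (hb1 a l).2]
        · rw [← mul_assoc, h3]
      · rw [Fin.append_right]
        obtain ⟨h1, _, h3, _⟩ := hs' (p' i) (hpP' i)
        refine ⟨(R a).mul_mem h1 (hb1 a l).1, ?_, ?_⟩
        · rw [mul_assoc, (hb1 a l).2]
        · rw [← mul_assoc, h3])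
  obtain ⟨z, hz⟩ : ∃ z, z = ∑ i : Fin j, c (Fin.castAdd j' i) * s (p i) := ⟨_, rfl⟩
  obtain ⟨w, hw⟩ : ∃ w, w = ∑ i : Fin j', c (Fin.natAdd j i) * s' (p' i) := ⟨_, rfl⟩
  have hzw : ∀ l, z * bb E γ a l = -w * bb E γ a l := by
    intro l
    rcases Nat.lt_or_ge a l with hl | hl
    · rw [hb2 a l hl, mul_zero, mul_zero]
    · have h1 := hc3 ⟨l, by omega⟩
      rw [Fin.sum_univ_add] at h1
      simp only [Fin.append_left, Fin.append_right] at h1
      rw [neg_mul, eq_neg_iff_add_eq_zero, hz, hw, Finset.sum_mul, Finset.sum_mul, ← h1]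
      simp only [mul_assoc]
  refine ⟨z, ?_, -w, ?_, ?_, ?_, hzw, ?_⟩
  · rw [hz]
    exact Ideal.sum_mem _ fun i _ => Ideal.mul_mem_left _ _ (hs _ (hpP i)).2.1
  · rw [hw]
    exact neg_mem (Ideal.sum_mem _ fun i _ => Ideal.mul_mem_left _ _ (hs' _ (hpP' i)).2.1)
  · rw [hz]
    exact (R a).sum_mem fun i _ => (R a).mul_mem (hc1 _).1 (hs _ (hpP i)).1
  · rw [hw]
    exact (R a).neg_mem ((R a).sum_mem fun i _ => (R a).mul_mem (hc1 _).1 (hs' _ (hpP' i)).1)
  · by_contra hcon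
    push Not at hcon
    obtain ⟨i, hi⟩ := hc2
    apply hi
    refine Fin.addCases (fun i => ?_) (fun i => ?_) i
    · have h1 := INT_pick (E a) P j p hp hpP s (bb E γ a) (fun i hi i' hi' => (hs i hi).2.2.2 i' hi')
        (fun i => c (Fin.castAdd j' i)) i
      rw [← hz, hcon, (hc1 _).2] at h1
      exact h1.symm
    · have h1 := INT_pick (E a) P' j' p' hp' hpP' s' (bb E γ a) (fun i hi i' hi' => (hs' i hi).2.2.2 i' hi')
        (fun i => c (Fin.natAdd j i)) i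
      have h2 := hzw (p' i)
      rw [hcon, neg_mul, zero_eq_neg] at h2
      rw [← hw, h2, (hc1 _).2] at h1
      exact h1.symm

end Pool.Agent.IC
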